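import Pool.Agent.KSW.Fam

/-!
The map of Clifford modules commutes with the symmetries. The version of `KSR/HomA.lean` with an
index map.
-/

namespace Pool.Agent.KSW

open Module Matrix NumberField Pool.Agent.Helper7 Pool.Agent.KS Pool.Agent.Ball
  Pool.Agent.Helper28.GPC Pool.Agent.KSE
open Pool.Agent.KSR (PL SkP trans_bvS)

set_option linter.unusedSectionVars false

variable {I J : Type} [Fintype I] [DecidableEq I] [Fintype J] [DecidableEq J]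
    {ε : I → J} (n : J → ℕ) {κ : J → Type}
    [∀ j, Fintype (κ j)] [∀ j, DecidableEq (κ j)] {ϖ : ℂ} (hϖ : ϖ ≠ 0) (P : ∀ j, PData (κ j) ϖ)
    {K : I → Type} [∀ i, Field (K i)] [∀ i, NumberField (K i)] {c : ∀ i, K i →+* K i} {m : I → ℕ}
    {h : ∀ i, Matrix (Fin (m i)) (Fin (m i)) (K i)}
    {t : ∀ i, Fin (m i) → K i → Module.End ℂ (κ (ε i) → ℂ)}
    (S : ∀ i, MD (P (ε i)) (c i) (h i) (t i)) {k : ℕ}
    (γ : MultilinearMap ℂ (fun _ : Fin (2 * k) => HW κ n) ℂ)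
    (hB : ∀ v : Fin (2 * k) → HW κ n, (∀ r, IsRatP n P (v r)) → ∃ q : ℚ, γ v = ϖ ^ k * q)
    (hA : ∀ v : Fin (2 * k) → HW κ n, (∀ r i m j, IsAlgebraic ℚ (v r i m j)) →
      IsAlgebraic ℚ (γ v))
    (hreal : ∀ i (σ : K i →+* ℂ), cj σ = σ)
    (hT : ∀ X : GG κ, IsInv n P γ X → ∀ i, ∃ M, ActM (t i) (X.1 (ε i)) M)

include hϖ S hB hA hreal hT in
theorem hom_of_F (i j : I) (hi : Nonempty (κ (ε i))) (hj : Nonempty (κ (ε j)))
    (φ : (K i →+* ℂ) → (K j →+* ℂ)) (hφ : Function.Bijective φ)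
    (g : (K i →+* ℂ) → Matrix (Fin (m j)) (Fin (m i)) ℂ)
    (hg' : ∀ σ, ∃ g' : Matrix (Fin (m i)) (Fin (m j)) ℂ, g σ * g' = 1)
    (hg : ∀ σ, (g σ)ᵀ * (h j).map (φ σ) * g σ = (h i).map σ)
    (hM : ∀ M ∈ RRE ε n P h t γ, ∀ σ, M ⟨j, φ σ⟩ * g σ = g σ * M ⟨i, σ⟩)
    (F : (κ (ε i) → ℂ) →ₗ[ℂ] (κ (ε j) → ℂ)) (hF0 : F ≠ 0)
    (hF : ∀ σ x y, F ∘ₗ (tau (ts (t i) σ) x * tau (ts (t i) σ) y) =
      (tau (ts (t j) (φ σ)) (g σ *ᵥ x) * tau (ts (t j) (φ σ)) (g σ *ᵥ y)) ∘ₗ F) :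
    ∃ f : (κ (ε i) → ℂ) →ₗ[ℂ] (κ (ε j) → ℂ), IsDRB (P (ε i)) (P (ε j)) f ∧ f ≠ 0 := by
  classical
  have hFI0 : ∀ X : GG κ, IsInv n P γ X → X.2 = 0 → F ∘ₗ X.1 (ε i) = X.1 (ε j) ∘ₗ F := by
    intro X hX hX2
    obtain ⟨M, hMR, hMX⟩ := exists_famE S hreal hT X hX hX2
    have h1 := mem_bvE n P (ε i) (S i) γ X hX hX2 _ (hMX i)
    have h2 := mem_bvE n P (ε j) (S j) γ X hX hX2 _ (hMX j)
    obtain ⟨Z', M', h3, h4, h5, h6⟩ := trans_bvS (S i).conj (S i).nd (S i).cliff (S j).conj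
      (S j).cliff (hreal i) (hreal j) φ hφ g hg F hF (X.1 (ε i)) h1 _ (hMX i)
    have h7 : M' = fun σ => M ⟨j, σ⟩ := by
      funext ρ
      obtain ⟨σ, rfl⟩ := hφ.2 ρ
      obtain ⟨g', hg'⟩ := hg' σ
      have e : M' (φ σ) * g σ = M ⟨j, φ σ⟩ * g σ := (h6 σ).trans (hM M hMR σ).symm
      have e1 : M' (φ σ) * (g σ * g') = M ⟨j, φ σ⟩ * (g σ * g') := by
        rw [← Matrix.mul_assoc, ← Matrix.mul_assoc, e]
      rw [hg', Matrix.mul_one, Matrix.mul_one] at e1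
      exact e1
    rw [h7] at h5
    have h8 := eq_of_act (S j).conj (S j).herm (S j).nd (S j).cliff h3 h2 h5 (hMX j)
    rw [h4, h8]
  have hFI : ∀ X : GG κ, IsInv n P γ X → F ∘ₗ X.1 (ε i) = X.1 (ε j) ∘ₗ F := by
    intro X hX
    have h1 := hFI0 (X + (-X.2) • ((fun _ => (1 / 2 : ℂ) • (1 : Module.End ℂ _), 1) : GG κ))
      (hX.add _ _ _ ((Helper98.Ball.isInv_homothety _ _ _).smul _ _ _ _)) (by
        show X.2 + (-X.2) * 1 = 0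
        ring)
    apply LinearMap.ext
    intro v
    have h2 := LinearMap.congr_fun h1 v
    have h3 : F (X.1 (ε i) v + (-X.2) • ((1 / 2 : ℂ) • v)) =
      X.1 (ε j) (F v) + (-X.2) • ((1 / 2 : ℂ) • F v) := h2
    rw [map_add, map_smul, map_smul] at h3
    exact add_right_cancel h3
  obtain ⟨m', c', F', hF', hβ⟩ := bilin_of_inv n P γ hϖ hB hA (ε i) (ε j) ((P (ε j)).ψ ∘ₗ F) (by
    intro X hX u v
    have h1 : F (X.1 (ε i) u) = X.1 (ε j) (F u) := LinearMap.congr_fun (hFI X hX) u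
    show (P (ε j)).ψ (F (X.1 (ε i) u)) v + (P (ε j)).ψ (F u) (X.1 (ε j) v) = X.2 * (P (ε j)).ψ (F u) v
    rw [h1]
    exact hX.pol (ε j) (F u) v)
  by_contra hcon
  push Not at hcon
  apply hF0
  apply LinearMap.ext
  intro u
  rw [LinearMap.zero_apply]
  apply (P (ε j)).hψnd
  intro v
  have h1 : (P (ε j)).ψ (F u) v = ∑ l, c' l * (P (ε j)).ψ (F' l u) v := hβ u v
  rw [h1]
  refine Finset.sum_eq_zero fun l _ => ?_
  rw [hcon (F' l) (hF' l), LinearMap.zero_apply, map_zero, LinearMap.zero_apply, mul_zero]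

end Pool.Agent.KSW
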