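import Pool.Agent.KSW.Core
import Pool.Agent.KSW.Iso
import Pool.Agent.KSW.Hom
import Pool.Agent.KSW.Gam

/-!
Independence of the places. The version of `KSR/FinalA.lean` with an index map.
-/

namespace Pool.Agent.KSW

open Module Matrix NumberField Pool.Agent.Helper7 Pool.Agent.KS Pool.Agent.Ball
  Pool.Agent.Helper28.GPC Pool.Agent.KSE
open Pool.Agent.KSR (PL SkP skP_iff skw_of_skP skP_of_skw SkP.zero twP skP_tw bil_nd exists_skP exists_F)

set_option linter.unusedSectionVars false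

section fam

variable {I J : Type} [Fintype I] [DecidableEq I] [Fintype J] [DecidableEq J]
    {ε : I → J} (n : J → ℕ) {κ : J → Type}
    [∀ j, Fintype (κ j)] [∀ j, DecidableEq (κ j)] {ϖ : ℂ} (hϖ : ϖ ≠ 0) (P : ∀ j, PData (κ j) ϖ)
    {K : I → Type} [∀ i, Field (K i)] [∀ i, NumberField (K i)] {c : ∀ i, K i →+* K i} {m : I → ℕ}
    {h : ∀ i, Matrix (Fin (m i)) (Fin (m i)) (K i)}
    {t : ∀ i, Fin (m i) → K i → Module.End ℂ (κ (ε i) → ℂ)}
    (S : ∀ i, MD (P (ε i)) (c i) (h i) (t i)) {k : ℕ}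
    (γ : MultilinearMap ℂ (fun _ : Fin (2 * k) => HW κ n) ℂ)
    (hB : ∀ v : Fin (2 * k) → HW κ n, (∀ r, IsRatP n P (v r)) → ∃ q : ℚ, γ v = ϖ ^ k * q)
    (hA : ∀ v : Fin (2 * k) → HW κ n, (∀ r i m j, IsAlgebraic ℚ (v r i m j)) →
      IsAlgebraic ℚ (γ v))
    (hP : ∀ i, HNd (P (ε i)))
    (hreal : ∀ i (σ : K i →+* ℂ), cj σ = σ)
    (σ₀ : ∀ i, K i →+* ℂ)
    (hsig : ∀ i, Sig2 (CoreR.GR (h i) (σ₀ i)) ∨ Sig2 (-(CoreR.GR (h i) (σ₀ i))))
    (hdef : ∀ i (σ : K i →+* ℂ), σ ≠ σ₀ i → Definite ((h i).map (cj σ)))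
    (hT : ∀ X : GG κ, IsInv n P γ X → ∀ i, ∃ M, ActM (t i) (X.1 (ε i)) M)
    (hTg : ∀ g : (j : J) → Module.End ℂ (κ j → ℂ), IsGrp n P γ g → ∀ i,
      ∃ A : (K i →+* ℂ) → Matrix (Fin (m i)) (Fin (m i)) ℂ, ∀ σ x,
        g (ε i) * tau (ts (t i) σ) x = tau (ts (t i) σ) (A σ *ᵥ x) * g (ε i))
    (hHom : ∀ i j, i ≠ j → ∀ f : (κ (ε i) → ℂ) →ₗ[ℂ] (κ (ε j) → ℂ), IsDRB (P (ε i)) (P (ε j)) f → f = 0)

omit [DecidableEq I] [∀ j, Fintype (κ j)] in
lemma actM_empty (i : I) (hκ : IsEmpty (κ (ε i))) (X : Module.End ℂ (κ (ε i) → ℂ))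
    (M : (K i →+* ℂ) → Matrix (Fin (m i)) (Fin (m i)) ℂ) : ActM (t i) X M := by
  intro σ x
  apply LinearMap.ext
  intro v
  funext j
  exact hκ.elim j

variable {n P γ}

/-- the values at an empty factor are arbitrary -/
lemma update_mem {M : ∀ p : PL K, Matrix (Fin (m p.1)) (Fin (m p.1)) ℂ}
    (hM : M ∈ RRE ε n P h t γ) [DecidableEq (PL K)] (q : PL K) (hq : IsEmpty (κ (ε q.1)))
    (Z : Matrix (Fin (m q.1)) (Fin (m q.1)) ℂ) (hZ : SkP (h q.1) q.2 Z) :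
    Function.update M q Z ∈ RRE ε n P h t γ := by
  obtain ⟨hM1, X, hX, hX2, hXM⟩ := hM
  refine ⟨fun p => ?_, X, hX, hX2, fun l => ?_⟩
  · by_cases hp : p = q
    · subst hp
      rw [Function.update_self]
      exact hZ
    · rw [Function.update_of_ne hp]
      exact hM1 p
  · by_cases hl : l = q.1
    · subst hl
      exact actM_empty q.1 hq _ _
    · have e : (fun σ : K l →+* ℂ => Function.update M q Z ⟨l, σ⟩) = fun σ => M ⟨l, σ⟩ := by
        funext σ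
        rw [Function.update_of_ne]
        intro h0
        exact hl (congrArg Sigma.fst h0)
      rw [e]
      exact hXM l

variable (n P γ)

include hϖ S hB hA hP hreal hsig hdef hT hTg in
/-- all skew matrices at a place, with the value zero at all other places which do not correspond to it -/
lemma core_at (p : PL K) (hm3 : 3 ≤ m p.1) (hm5 : m p.1 ≠ 5) (τ : ℂ ≃+* ℂ)
    (hτ : (τ : ℂ →+* ℂ).comp (σ₀ p.1) = p.2) (Z : Matrix (Fin (m p.1)) (Fin (m p.1)) ℂ)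
    (hZ : SkP (h p.1) p.2 Z) :
    ∃ M ∈ RRE ε n P h t γ, M p = Z ∧
      ∀ q : PL K, q ≠ p → q.2 ≠ (τ : ℂ →+* ℂ).comp (σ₀ q.1) → M q = 0 := by
  classical
  rcases isEmpty_or_nonempty (κ (ε p.1)) with hκ | hκ
  · refine ⟨Function.update 0 p Z, update_mem (Submodule.zero_mem _) p hκ Z hZ, ?_,
      fun q hq _ => ?_⟩
    · rw [Function.update_self]
    · rw [Function.update_of_ne hq]
      rfl
  obtain ⟨i, σ⟩ := p
  simp only at hτ hZ Z hκ hm3 hm5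
  have hτ' : (τ.symm : ℂ →+* ℂ).comp σ = σ₀ i := by
    rw [← hτ]
    ext x
    exact τ.symm_apply_apply (σ₀ i x)
  have e2 : SkP (h i) (σ₀ i) (Z.map τ.symm) := by
    have h1 := skP_tw (g := h i) τ.symm (σ₀ i) (Z := Z) (by
      have e : ((τ.symm).symm : ℂ →+* ℂ).comp (σ₀ i) = σ := hτ
      rw [e]
      exact hZ)
    exact h1
  obtain ⟨M, hM, hM1, hM2⟩ := RRE_core0 n hϖ P S γ hB hA hP hreal σ₀ hsig hdef hT hTg i hκ hm3 hm5
    _ e2
  refine ⟨twP τ M, RRE_twist hϖ S hB hM τ, ?_, fun q _ hq => ?_⟩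
  · show (M ⟨i, (τ.symm : ℂ →+* ℂ).comp σ⟩).map τ = Z
    rw [hτ', hM1]
    ext a b
    rw [Matrix.map_apply, Matrix.map_apply]
    exact τ.apply_symm_apply (Z a b)
  · show (M ⟨q.1, (τ.symm : ℂ →+* ℂ).comp q.2⟩).map τ = 0
    rw [hM2]
    · exact Matrix.map_zero τ (map_zero τ)
    · intro h1
      apply hq
      have h2 : (τ.symm : ℂ →+* ℂ).comp q.2 = σ₀ q.1 := h1
      rw [← h2]
      ext x
      exact (τ.apply_symm_apply (q.2 x)).symm

include S hreal in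
lemma exists_skP' (p : PL K) (hm3 : 3 ≤ m p.1) :
    ∃ Z, SkP (h p.1) p.2 Z ∧ Z ≠ 0 :=
  exists_skP (by omega) (hreal p.1 p.2) (S p.1).nd
    (CoreR.GR_tr (S p.1).conj (S p.1).herm (hreal p.1 p.2))

include hϖ S hB hA hP hreal hsig hdef hT hTg hHom in
/-- two different places are not linked -/
lemma not_linkedE (hm : ∀ i, m i = 3 ∨ 6 ≤ m i) (p q : PL K) (hpq : p ≠ q) :
    ∃ M ∈ RRE ε n P h t γ, M q = 0 ∧ M p ≠ 0 := by
  classical
  have hm3 : ∀ i, 3 ≤ m i := fun i => by have := hm i; omega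
  have hm5 : ∀ i, m i ≠ 5 := fun i => by have := hm i; omega
  obtain ⟨τ, hτ⟩ := Pool.Agent.Helper84.exists_aut (σ₀ p.1) p.2
  obtain ⟨Z, hZ, hZ0⟩ := exists_skP' P S hreal p (hm3 _)
  obtain ⟨M, hM, hMp, hM0⟩ := core_at n hϖ P S γ hB hA hP hreal σ₀ hsig hdef hT hTg p (hm3 _)
    (hm5 _) τ hτ Z hZ
  by_cases hq : q.2 = (τ : ℂ →+* ℂ).comp (σ₀ q.1)
  swap
  · exact ⟨M, hM, hM0 q (Ne.symm hpq) hq, by rw [hMp]; exact hZ0⟩
  have hne : p.1 ≠ q.1 := by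
    intro h1
    apply hpq
    obtain ⟨i, σ⟩ := p
    obtain ⟨j, ρ⟩ := q
    simp only at h1 hτ hq
    subst h1
    rw [hq, hτ]
  rcases isEmpty_or_nonempty (κ (ε p.1)) with hκ | hκ
  · refine ⟨Function.update 0 p Z, update_mem (Submodule.zero_mem _) p hκ Z hZ, ?_, ?_⟩
    · rw [Function.update_of_ne (Ne.symm hpq)]
      rfl
    · rw [Function.update_self]
      exact hZ0
  rcases isEmpty_or_nonempty (κ (ε q.1)) with hκ' | hκ'
  · refine ⟨Function.update M q 0, update_mem hM q hκ' 0 SkP.zero, ?_, ?_⟩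
    · rw [Function.update_self]
    · rw [Function.update_of_ne hpq, hMp]
      exact hZ0
  by_contra hcon
  push Not at hcon
  -- the link at the hyperbolic places
  have hlink : ∀ M ∈ RRE ε n P h t γ, M ⟨q.1, σ₀ q.1⟩ = 0 → M ⟨p.1, σ₀ p.1⟩ = 0 := by
    intro M' hM' h0
    have h1 := RRE_twist hϖ S hB hM' τ
    have e1 : (τ.symm : ℂ →+* ℂ).comp q.2 = σ₀ q.1 := by
      rw [hq]
      ext x
      exact τ.symm_apply_apply (σ₀ q.1 x)
    have e2 : (τ.symm : ℂ →+* ℂ).comp p.2 = σ₀ p.1 := by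
      rw [← hτ]
      ext x
      exact τ.symm_apply_apply (σ₀ p.1 x)
    have h2 : twP τ M' q = 0 := by
      show (M' ⟨q.1, (τ.symm : ℂ →+* ℂ).comp q.2⟩).map τ = 0
      rw [e1, h0]
      exact Matrix.map_zero τ (map_zero τ)
    have h3 : (M' ⟨p.1, (τ.symm : ℂ →+* ℂ).comp p.2⟩).map τ = 0 := hcon _ h1 h2
    rw [e2] at h3
    ext a b
    have h4 := congrFun (congrFun h3 a) b
    rw [Matrix.map_apply, Matrix.zero_apply] at h4
    exact (map_eq_zero τ).mp h4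
  have hcore : ∀ l, l = p.1 ∨ l = q.1 → ∀ Z, SkP (h l) (σ₀ l) Z →
      ∃ M ∈ RRE ε n P h t γ, M ⟨l, σ₀ l⟩ = Z ∧ ∀ p : PL K, p.2 ≠ σ₀ p.1 → M p = 0 := by
    intro l hl Z hZ
    refine RRE_core0 n hϖ P S γ hB hA hP hreal σ₀ hsig hdef hT hTg l ?_ (hm3 l) (hm5 l) Z hZ
    rcases hl with rfl | rfl
    · exact hκ
    · exact hκ'
  have hl : ∀ M ∈ RRE ε n P h t γ, M ⟨p.1, σ₀ p.1⟩ = 0 ↔ M ⟨q.1, σ₀ q.1⟩ = 0 := by
    intro M' hM'
    refine ⟨fun h0 => ?_, fun h0 => hlink M' hM' h0⟩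
    by_contra hj0
    let 𝔞 : Submodule ℂ (Module.End ℂ (Fin (m q.1) → ℂ)) :=
      { carrier := {B | ∃ N ∈ RRE ε n P h t γ, N ⟨p.1, σ₀ p.1⟩ = 0 ∧
          Matrix.toLin' (N ⟨q.1, σ₀ q.1⟩) = B}
        add_mem' := by
          rintro B B' ⟨N, hN, hN0, hNB⟩ ⟨N', hN', hN'0, hNB'⟩
          refine ⟨N + N', Submodule.add_mem _ hN hN', ?_, ?_⟩
          · rw [Pi.add_apply, hN0, hN'0, add_zero]
          · rw [Pi.add_apply, map_add, hNB, hNB']
        zero_mem' := ⟨0, Submodule.zero_mem _, rfl, by rw [Pi.zero_apply, map_zero]⟩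
        smul_mem' := by
          rintro c B ⟨N, hN, hN0, hNB⟩
          refine ⟨c • N, Submodule.smul_mem _ _ hN, ?_, ?_⟩
          · rw [Pi.smul_apply, hN0, smul_zero]
          · rw [Pi.smul_apply, map_smul, hNB] }
    have hσj := hreal q.1 (σ₀ q.1)
    have hsj := CoreR.GR_tr (S q.1).conj (S q.1).herm hσj
    have htop := KSP.ideal_top (by have := hm q.1; omega) (bil (CoreR.GR (h q.1) (σ₀ q.1)))
      (bil_symm hsj) (bil_nd hσj (S q.1).nd) 𝔞 (by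
        rintro B ⟨N, hN, -, rfl⟩
        exact skw_of_skP hσj (hN.1 ⟨q.1, σ₀ q.1⟩)) (by
        rintro B ⟨N, hN, hN0, rfl⟩ C hC
        obtain ⟨N', hN', hN'C, -⟩ := hcore q.1 (Or.inr rfl) _ (skP_of_skw hσj hC)
        refine ⟨N' * N - N * N', RRE_bracket hN' hN, ?_, ?_⟩
        · rw [Pi.sub_apply, Pi.mul_apply, Pi.mul_apply, hN0, mul_zero, zero_mul, sub_zero]
        · have e : C = Matrix.toLin' (N' ⟨q.1, σ₀ q.1⟩) := by
            rw [hN'C, Matrix.toLin'_toMatrix']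
          rw [Pi.sub_apply, Pi.mul_apply, Pi.mul_apply, map_sub, Matrix.toLin'_mul,
            Matrix.toLin'_mul, e]
          rfl) (Matrix.toLin' (M' ⟨q.1, σ₀ q.1⟩)) ⟨M', hM', h0, rfl⟩ (fun h1 =>
        hj0 ((LinearEquiv.map_eq_zero_iff _).1 h1))
    obtain ⟨Z', hZ', hZ'0⟩ := exists_skP' P S hreal ⟨p.1, σ₀ p.1⟩ (hm3 p.1)
    obtain ⟨M₁, hM₁, hM₁Z, -⟩ := hcore p.1 (Or.inl rfl) Z' hZ'
    obtain ⟨N, hN, hN0, hNj⟩ := htop (Matrix.toLin' (M₁ ⟨q.1, σ₀ q.1⟩))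
      (skw_of_skP hσj (hM₁.1 ⟨q.1, σ₀ q.1⟩))
    have h1 := hlink (M₁ - N) (Submodule.sub_mem _ hM₁ hN) (by
      rw [Pi.sub_apply, Matrix.toLin'.injective hNj, sub_self])
    rw [Pi.sub_apply, hN0, sub_zero, hM₁Z] at h1
    exact hZ'0 h1
  obtain ⟨φ, g, hφ, hg', hg, hMg⟩ := exists_iso n hϖ P S γ hB hreal σ₀ hsig p.1 q.1 (hm p.1)
    (hm q.1) hcore hl
  obtain ⟨F, hF0, hF⟩ := exists_F (S p.1).conj (S p.1).herm (S p.1).nd (S p.1).cliff (S q.1).conj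
    (S q.1).cliff (hreal p.1) (hreal q.1) φ hφ.1 g hg
  obtain ⟨f, hf, hf0⟩ := hom_of_F n hϖ P S γ hB hA hreal hT p.1 q.1 hκ hκ' φ hφ g hg' hg hMg F hF0
    hF
  exact hf0 (hHom p.1 q.1 hne f hf)

include hϖ S hB hA hP hreal hsig hdef hT hTg hHom in
/-- the symmetries contain the concentrated ones -/
lemma RRE_single [DecidableEq (PL K)] (hm3 : ∀ i, 3 ≤ m i) (hm5 : ∀ i, m i ≠ 5)
    (hm4 : (∀ i, m i ≠ 4) ∨ Subsingleton I) (p : PL K)
    (Z : Matrix (Fin (m p.1)) (Fin (m p.1)) ℂ) (hZ : SkP (h p.1) p.2 Z) :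
    (Pi.single p Z : ∀ p : PL K, Matrix (Fin (m p.1)) (Fin (m p.1)) ℂ) ∈ RRE ε n P h t γ := by
  rcases hm4 with hm4 | hI
  · have hm : ∀ i, m i = 3 ∨ 6 ≤ m i := fun i => by
      have h1 := hm3 i
      have h2 := hm4 i
      have h3 := hm5 i
      omega
    let L : (∀ p : PL K, Matrix (Fin (m p.1)) (Fin (m p.1)) ℂ) ≃ₗ[ℂ]
        (∀ p : PL K, Module.End ℂ (Fin (m p.1) → ℂ)) :=
      LinearEquiv.piCongrRight fun p => Matrix.toLin'
    have hL : ∀ M p, L M p = Matrix.toLin' (M p) := fun _ _ => rfl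
    obtain ⟨R, hR⟩ : ∃ R : Submodule ℂ (∀ p : PL K, Module.End ℂ (Fin (m p.1) → ℂ)),
      R = (RRE ε n P h t γ).map (L : (∀ p : PL K, Matrix (Fin (m p.1)) (Fin (m p.1)) ℂ) →ₗ[ℂ]
        (∀ p : PL K, Module.End ℂ (Fin (m p.1) → ℂ))) := ⟨_, rfl⟩
    have hmem : ∀ X, X ∈ R ↔ ∃ M ∈ RRE ε n P h t γ, L M = X := by
      intro X
      rw [hR]
      exact Submodule.mem_map
    have h1 := KSP.goursat (I := PL K) (fun p => m p.1) (fun p => by have := hm p.1; omega)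
      (fun p => bil (CoreR.GR (h p.1) p.2))
      (fun p => bil_symm (CoreR.GR_tr (S p.1).conj (S p.1).herm (hreal p.1 p.2)))
      (fun p => bil_nd (hreal p.1 p.2) (S p.1).nd) R (by
        intro X hX Y hY
        rw [hmem] at hX hY ⊢
        obtain ⟨M, hM, rfl⟩ := hX
        obtain ⟨M', hM', rfl⟩ := hY
        refine ⟨_, RRE_bracket hM hM', ?_⟩
        funext p
        rw [hL, Pi.sub_apply, Pi.mul_apply, Pi.mul_apply, map_sub, Matrix.toLin'_mul,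
          Matrix.toLin'_mul]
        rfl) (by
        intro X hX p
        rw [hmem] at hX
        obtain ⟨M, hM, rfl⟩ := hX
        exact skw_of_skP (hreal p.1 p.2) (hM.1 p)) (by
        intro p A hA'
        obtain ⟨τ, hτ⟩ := Pool.Agent.Helper84.exists_aut (σ₀ p.1) p.2
        obtain ⟨M, hM, hMp, -⟩ := core_at n hϖ P S γ hB hA hP hreal σ₀ hsig hdef hT hTg p (hm3 _)
          (hm5 _) τ hτ _ (skP_of_skw (hreal p.1 p.2) hA')
        refine ⟨L M, (hmem _).mpr ⟨M, hM, rfl⟩, ?_⟩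
        rw [hL, hMp, Matrix.toLin'_toMatrix']) (by
        intro p q hpq
        obtain ⟨M, hM, hMq, hMp⟩ := not_linkedE n hϖ P S γ hB hA hP hreal σ₀ hsig hdef hT hTg hHom
          hm p q hpq
        refine ⟨L M, (hmem _).mpr ⟨M, hM, rfl⟩, ?_, fun h0 => hMp ?_⟩
        · rw [hL, hMq, map_zero]
        · rw [hL] at h0
          exact (LinearEquiv.map_eq_zero_iff _).1 h0) p (Matrix.toLin' Z)
      (skw_of_skP (hreal p.1 p.2) hZ)
    rw [hmem] at h1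
    obtain ⟨M, hM, hM1⟩ := h1
    have h2 : M = Pi.single p Z := by
      funext q
      have h3 := congrFun hM1 q
      rw [hL] at h3
      by_cases hq : q = p
      · subst hq
        rw [Pi.single_eq_same] at h3 ⊢
        exact Matrix.toLin'.injective h3
      · rw [Pi.single_eq_of_ne hq] at h3 ⊢
        exact (LinearEquiv.map_eq_zero_iff _).1 h3
    rw [← h2]
    exact hM
  · obtain ⟨τ, hτ⟩ := Pool.Agent.Helper84.exists_aut (σ₀ p.1) p.2
    obtain ⟨M, hM, hMp, hM0⟩ := core_at n hϖ P S γ hB hA hP hreal σ₀ hsig hdef hT hTg p (hm3 _)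
      (hm5 _) τ hτ Z hZ
    have h2 : M = Pi.single p Z := by
      funext q
      by_cases hq : q = p
      · subst hq
        rw [Pi.single_eq_same, hMp]
      · rw [Pi.single_eq_of_ne hq]
        apply hM0 q hq
        intro h3
        apply hq
        obtain ⟨i, σ⟩ := p
        obtain ⟨j, ρ⟩ := q
        simp only at h3 hτ
        have hij : i = j := Subsingleton.elim _ _
        subst hij
        rw [h3, hτ]
    rw [← h2]
    exact hM

end fam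

end Pool.Agent.KSW
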