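import Pool.Agent.KSR.FinalA

/-!
Products of Kuga-Satake varieties with real multiplication and of arbitrary abelian varieties:
families of matrices of symmetries, twists. The version of `KSR/Defs.lean`, `KSR/FamA.lean` with an
index map `ε : I → J`; the abelian varieties are indexed by `J`.
-/

namespace Pool.Agent.KSW

open Module Matrix NumberField Pool.Agent.Helper7 Pool.Agent.KS Pool.Agent.Ball
  Pool.Agent.Helper28.GPC Pool.Agent.KSE Pool.Agent.KSE.TwistE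
open Pool.Agent.KSR (PL SkP skP_iff skw_of_skP skP_of_skw twP skP_tw)

set_option linter.unusedSectionVars false

section fam

variable {I J : Type} [Fintype I] [DecidableEq I] [Fintype J] [DecidableEq J]
    (ε : I → J) (n : J → ℕ) {κ : J → Type}
    [∀ j, Fintype (κ j)] [∀ j, DecidableEq (κ j)] {ϖ : ℂ} (P : ∀ j, PData (κ j) ϖ)
    {K : I → Type} [∀ i, Field (K i)] [∀ i, NumberField (K i)] {m : I → ℕ}
    (h : ∀ i, Matrix (Fin (m i)) (Fin (m i)) (K i))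
    (t : ∀ i, Fin (m i) → K i → Module.End ℂ (κ (ε i) → ℂ)) {k : ℕ}
    (γ : MultilinearMap ℂ (fun _ : Fin (2 * k) => HW κ n) ℂ)

/-- the action of the symmetries without multiplier, at all places -/
def RRE : Submodule ℂ (∀ p : PL K, Matrix (Fin (m p.1)) (Fin (m p.1)) ℂ) where
  carrier := {M | (∀ p : PL K, SkP (h p.1) p.2 (M p)) ∧ ∃ X : GG κ, IsInv n P γ X ∧ X.2 = 0 ∧
    ∀ i, ActM (t i) (X.1 (ε i)) (fun σ => M ⟨i, σ⟩)}
  add_mem' := by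
    rintro M M' ⟨h1, X, hX, hX2, hXM⟩ ⟨h1', X', hX', hX'2, hXM'⟩
    refine ⟨fun i => (h1 i).add (h1' i), X + X', hX.add _ _ _ hX', ?_,
      fun i => (hXM i).add (hXM' i)⟩
    show X.2 + X'.2 = 0
    rw [hX2, hX'2, add_zero]
  zero_mem' := ⟨fun p => SkP.zero, 0, IsInv.zero _ _ _, rfl, fun i => ActM.zero⟩
  smul_mem' := by
    rintro r M ⟨h1, X, hX, hX2, hXM⟩
    refine ⟨fun i => (h1 i).smul r, r • X, hX.smul _ _ _ r, ?_, fun i => (hXM i).smul r⟩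
    show r * X.2 = 0
    rw [hX2, mul_zero]

variable {ε n P h t γ}

lemma mem_RRE {M : ∀ p : PL K, Matrix (Fin (m p.1)) (Fin (m p.1)) ℂ} :
    M ∈ RRE ε n P h t γ ↔ (∀ p : PL K, SkP (h p.1) p.2 (M p)) ∧
      ∃ X : GG κ, IsInv n P γ X ∧ X.2 = 0 ∧ ∀ i, ActM (t i) (X.1 (ε i)) (fun σ => M ⟨i, σ⟩) := Iff.rfl

lemma RRE_bracket {M M' : ∀ p : PL K, Matrix (Fin (m p.1)) (Fin (m p.1)) ℂ}
    (h1 : M ∈ RRE ε n P h t γ) (h2 : M' ∈ RRE ε n P h t γ) : M * M' - M' * M ∈ RRE ε n P h t γ := by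
  obtain ⟨h1, X, hX, hX2, hXM⟩ := h1
  obtain ⟨h1', X', hX', hX'2, hXM'⟩ := h2
  refine ⟨fun p => (h1 p).bracket (h1' p), X * X' - X' * X, hX.bracket _ _ _ hX', ?_,
    fun i => (hXM i).bracket (hXM' i)⟩
  show X.2 * X'.2 - X'.2 * X.2 = 0
  rw [hX2, hX'2]; ring

end fam


variable {I J : Type} [Fintype I] [DecidableEq I] [Fintype J] [DecidableEq J]
    {ε : I → J} {n : J → ℕ} {κ : J → Type}
    [∀ j, Fintype (κ j)] [∀ j, DecidableEq (κ j)] {ϖ : ℂ} (hϖ : ϖ ≠ 0) {P : ∀ j, PData (κ j) ϖ}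
    {K : I → Type} [∀ i, Field (K i)] [∀ i, NumberField (K i)] {c : ∀ i, K i →+* K i} {m : I → ℕ}
    {h : ∀ i, Matrix (Fin (m i)) (Fin (m i)) (K i)}
    {t : ∀ i, Fin (m i) → K i → Module.End ℂ (κ (ε i) → ℂ)}
    (S : ∀ i, MD (P (ε i)) (c i) (h i) (t i)) {k : ℕ}
    {γ : MultilinearMap ℂ (fun _ : Fin (2 * k) => HW κ n) ℂ}
    (hB : ∀ v : Fin (2 * k) → HW κ n, (∀ r, IsRatP n P (v r)) → ∃ q : ℚ, γ v = ϖ ^ k * q)
    (hreal : ∀ i (σ : K i →+* ℂ), cj σ = σ)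
    (hT : ∀ X : GG κ, IsInv n P γ X → ∀ i, ∃ M, ActM (t i) (X.1 (ε i)) M)

include S hreal in
lemma skP_of_act (i : I) [Nonempty (κ (ε i))] {X : Module.End ℂ (κ (ε i) → ℂ)}
    {M : (K i →+* ℂ) → Matrix (Fin (m i)) (Fin (m i)) ℂ} (hM : ActM (t i) X M) (σ : K i →+* ℂ) :
    SkP (h i) σ (M σ) := by
  rw [skP_iff]
  intro x y
  have h1 := ActM.skew (S i).conj (S i).cliff hM σ x y
  rw [hreal i σ] at h1
  exact h1

include S hreal hT in
/-- the family of a symmetry -/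
lemma exists_famE (X : GG κ) (hX : IsInv n P γ X) (hX2 : X.2 = 0) :
    ∃ M ∈ RRE ε n P h t γ, ∀ i, ActM (t i) (X.1 (ε i)) (fun σ => M ⟨i, σ⟩) := by
  have h1 : ∀ i, ∃ M : (K i →+* ℂ) → Matrix (Fin (m i)) (Fin (m i)) ℂ,
      ActM (t i) (X.1 (ε i)) M ∧ ∀ σ, SkP (h i) σ (M σ) := by
    intro i
    rcases isEmpty_or_nonempty (κ (ε i)) with hκ | hκ
    · refine ⟨0, fun σ x => ?_, fun σ => SkP.zero⟩
      apply LinearMap.ext
      intro v
      funext j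
      exact hκ.elim j
    · obtain ⟨M, hM⟩ := hT X hX i
      exact ⟨M, hM, skP_of_act S hreal i hM⟩
  choose M hM using h1
  exact ⟨fun p => M p.1 p.2, ⟨fun p => (hM p.1).2 p.2, X, hX, hX2, fun i => (hM i).1⟩,
    fun i => (hM i).1⟩

include S in
lemma fam_unique (i : I) [Nonempty (κ (ε i))] {X : Module.End ℂ (κ (ε i) → ℂ)}
    {M M' : (K i →+* ℂ) → Matrix (Fin (m i)) (Fin (m i)) ℂ} (hM : ActM (t i) X M)
    (hM' : ActM (t i) X M') : M = M' :=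
  ActM.unique (S i).conj (S i).cliff (S i).nd hM hM'

include S in
/-- the matrices of a twisted operator -/
lemma actM_tw (i : I) (X : GG κ) {M : (K i →+* ℂ) → Matrix (Fin (m i)) (Fin (m i)) ℂ}
    (hXM : ActM (t i) (X.1 (ε i)) M) (τ : ℂ ≃+* ℂ) : ActM (t i) ((tw P τ X).1 (ε i)) (twM τ M) := by
  intro σ x
  apply LinearMap.ext
  intro w
  obtain ⟨σ', hσ'⟩ : ∃ σ' : K i →+* ℂ, σ' = (τ.symm : ℂ →+* ℂ).comp σ := ⟨_, rfl⟩
  have hσ : σ = (τ : ℂ →+* ℂ).comp σ' := by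
    rw [hσ']
    ext z
    show σ z = τ (τ.symm (σ z))
    rw [RingEquiv.apply_symm_apply]
  obtain ⟨x', hx'⟩ : ∃ x' : Fin (m i) → ℂ, x' = fun a => τ.symm (x a) := ⟨_, rfl⟩
  have hx : x = fun a => τ (x' a) := by
    rw [hx']
    funext a
    rw [RingEquiv.apply_symm_apply]
  obtain ⟨v, hv⟩ : ∃ v, v = twV (P (ε i)) τ.symm w := ⟨_, rfl⟩
  have hw : w = twV (P (ε i)) τ v := by rw [hv, twV_symm]
  have e2 : twM τ M σ *ᵥ x = fun a => τ ((M σ' *ᵥ x') a) := by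
    funext a
    rw [twM, ← hσ', Matrix.mulVec, Matrix.mulVec, dotProduct, dotProduct, map_sum]
    refine Finset.sum_congr rfl fun b _ => ?_
    rw [Matrix.map_apply, map_mul, hx]
  rw [e2]
  have h1 := LinearMap.congr_fun (hXM σ' x') v
  rw [LinearMap.sub_apply, Module.End.mul_apply, Module.End.mul_apply] at h1
  rw [LinearMap.sub_apply, Module.End.mul_apply, Module.End.mul_apply]
  have h2 := congrArg (twV (P (ε i)) τ) h1
  rw [twV_sub, ← twV_tw, twV_tau _ _ (S i), twV_tau _ _ (S i), twV_tau _ _ (S i), ← twV_tw] at h2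
  rw [hw, hσ, hx]
  exact h2

include hϖ S hB in
/-- twists of families of symmetries -/
lemma RRE_twist {M : ∀ p : PL K, Matrix (Fin (m p.1)) (Fin (m p.1)) ℂ}
    (hM : M ∈ RRE ε n P h t γ) (τ : ℂ ≃+* ℂ) : twP τ M ∈ RRE ε n P h t γ := by
  obtain ⟨h1, X, hX, hX2, hXM⟩ := hM
  refine ⟨fun p => skP_tw τ p.2 (h1 ⟨p.1, (τ.symm : ℂ →+* ℂ).comp p.2⟩), tw P τ X,
    isInv_tw n P γ hϖ hB τ X hX, ?_, fun i => actM_tw S i X (hXM i) τ⟩
  rw [tw_snd, hX2, map_zero]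

end Pool.Agent.KSW
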