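import Pool.Agent.KSW.Rep

/-!
A hyperbolic family. The version of `KSR/HypA.lean` with an index map.
-/

namespace Pool.Agent.KSW

open Module Matrix NumberField Pool.Agent.Helper7 Pool.Agent.KS Pool.Agent.Ball
  Pool.Agent.Helper28.GPC Pool.Agent.KSE
open Pool.Agent.KSR.HypA
open Pool.Agent.KSR (PL SkP skP_iff skw_of_skP skP_of_skw twP)

set_option linter.unusedSectionVars false

variable {I J : Type} [Fintype I] [DecidableEq I] [Fintype J] [DecidableEq J]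
    {ε : I → J} (n : J → ℕ) {κ : J → Type}
    [∀ j, Fintype (κ j)] [∀ j, DecidableEq (κ j)] {ϖ : ℂ} (hϖ : ϖ ≠ 0) (P : ∀ j, PData (κ j) ϖ)
    {K : I → Type} [∀ i, Field (K i)] [∀ i, NumberField (K i)] {c : ∀ i, K i →+* K i} {m : I → ℕ}
    {h : ∀ i, Matrix (Fin (m i)) (Fin (m i)) (K i)}
    {t : ∀ i, Fin (m i) → K i → Module.End ℂ (κ (ε i) → ℂ)}
    (S : ∀ i, MD (P (ε i)) (c i) (h i) (t i)) {k : ℕ}
    (γ : MultilinearMap ℂ (fun _ : Fin (2 * k) => HW κ n) ℂ)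
    (hB : ∀ v : Fin (2 * k) → HW κ n, (∀ r, IsRatP n P (v r)) → ∃ q : ℚ, γ v = ϖ ^ k * q)
    (hreal : ∀ i (σ : K i →+* ℂ), cj σ = σ)
    (σ₀ : ∀ i, K i →+* ℂ)
    (hsig : ∀ i, Sig2 (CoreR.GR (h i) (σ₀ i)) ∨ Sig2 (-(CoreR.GR (h i) (σ₀ i))))
    (hdef : ∀ i (σ : K i →+* ℂ), σ ≠ σ₀ i → Definite ((h i).map (cj σ)))
    (hT : ∀ X : GG κ, IsInv n P γ X → ∀ i, ∃ M, ActM (t i) (X.1 (ε i)) M)

include hϖ S hB hreal hsig hdef hT in
theorem exists_hypA (i : I) (hne : Nonempty (κ (ε i))) (hm3 : 3 ≤ m i)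
    (hall : ∀ Z, SkP (h i) (σ₀ i) Z → ∃ M ∈ RRE ε n P h t γ, M ⟨i, σ₀ i⟩ = Z) :
    ∃ e f : Fin (m i) → ℝ, e ⬝ᵥ (CoreR.GR (h i) (σ₀ i) *ᵥ e) = 0 ∧
      f ⬝ᵥ (CoreR.GR (h i) (σ₀ i) *ᵥ f) = 0 ∧ e ⬝ᵥ (CoreR.GR (h i) (σ₀ i) *ᵥ f) = 1 ∧
      ∃ B ∈ RRE ε n P h t γ, B ⟨i, σ₀ i⟩ =
        LinearMap.toMatrix' (wed (bil (CoreR.GR (h i) (σ₀ i))) (cx e) (cx f)) ∧
        ∀ p : PL K, p.2 ≠ σ₀ p.1 → B p = 0 := by
  classical
  have hσi : cj (σ₀ i) = σ₀ i := hreal i (σ₀ i)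
  have hG : (CoreR.GR (h i) (σ₀ i))ᵀ = CoreR.GR (h i) (σ₀ i) :=
    CoreR.GR_tr (S i).conj (S i).herm hσi
  obtain ⟨e, f, he, hf', hef⟩ := KSP.LinkHyp.exists_pair hG hm3 (hsig i)
  set G := CoreR.GR (h i) (σ₀ i) with hGd
  have hs : ∀ x y, bil G x y = bil G y x := fun x y => KS.bil_symm hG x y
  have qee : bil G (cx e) (cx e) = 0 := by rw [KS.bil_cx, he, Complex.ofReal_zero]
  have qff : bil G (cx f) (cx f) = 0 := by rw [KS.bil_cx, hf', Complex.ofReal_zero]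
  have qef : bil G (cx e) (cx f) = 1 := by rw [KS.bil_cx, hef, Complex.ofReal_one]
  have qfe : bil G (cx f) (cx e) = 1 := by rw [hs, qef]
  set W := LinearMap.toMatrix' (wed (bil G) (cx e) (cx f)) with hWd
  have hWv : ∀ x, W *ᵥ x = bil G (cx f) x • cx e - bil G (cx e) x • cx f := by
    intro x
    rw [hWd, ← Matrix.toLin'_apply, Matrix.toLin'_toMatrix', wed_apply]
  have hWsk : SkP (h i) (σ₀ i) W := skP_of_skw hσi (KSP.Goursat.skw_wed _ hs _ _)
  obtain ⟨M, hM, hMW⟩ := hall _ hWsk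
  have hτ : ∀ p : PL K, ((starRingAut (R := ℂ)).symm : ℂ →+* ℂ).comp p.2 = p.2 := by
    intro p
    have := hreal p.1 p.2
    ext x
    exact RingHom.congr_fun this x
  obtain ⟨M', hM'⟩ : ∃ M', M' = (1 / 2 : ℂ) • (M + twP starRingAut M) := ⟨_, rfl⟩
  have hM'mem : M' ∈ RRE ε n P h t γ := by
    rw [hM']
    exact Submodule.smul_mem _ _ (Submodule.add_mem _ hM (RRE_twist hϖ S hB hM starRingAut))
  have hM'a : ∀ p a b, M' p a b = (1 / 2 : ℂ) * (M p a b + star (M p a b)) := by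
    intro p a b
    rw [hM', Pi.smul_apply, Pi.add_apply, Matrix.smul_apply, Matrix.add_apply, smul_eq_mul,
      twP, hτ p]
    rfl
  have hhalf : star (1 / 2 : ℂ) = 1 / 2 := by
    apply Complex.ext <;> simp
  have hM'r : ∀ p a b, star (M' p a b) = M' p a b := by
    intro p a b
    rw [hM'a, star_mul', star_add, star_star, hhalf, add_comm]
  have hM'W : M' ⟨i, σ₀ i⟩ = W := by
    ext a b
    rw [hM'a, hMW, hWd, wed_real]
    ring
  obtain ⟨N, hN, hNr⟩ := RRE_rep n P γ S hreal hT hM'mem rho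
  have mem_of : ∀ (p : PL K) (ν : ℂ) (x : Fin (m p.1) → ℂ), M' p *ᵥ x = ν • x →
      x ∈ Module.End.maxGenEigenspace (Matrix.toLin' (M' p)) ν := by
    intro p ν x hx
    rw [Module.End.mem_maxGenEigenspace]
    refine ⟨1, ?_⟩
    rw [pow_one, LinearMap.sub_apply, LinearMap.smul_apply, Module.End.one_apply,
      Matrix.toLin'_apply, hx, sub_self]
  have hNi : N ⟨i, σ₀ i⟩ = W := by
    have h1 : N ⟨i, σ₀ i⟩ *ᵥ cx e = cx e := by
      have h2 := hNr ⟨i, σ₀ i⟩ hne 1 (cx e) (mem_of ⟨i, σ₀ i⟩ 1 _ (by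
        rw [hM'W, hWv, qfe, qee, one_smul, zero_smul, sub_zero]))
      rw [h2, rho_apply, Complex.one_re, Complex.ofReal_one, one_smul]
    have h2 : N ⟨i, σ₀ i⟩ *ᵥ cx f = - cx f := by
      have h3 := hNr ⟨i, σ₀ i⟩ hne (-1) (cx f) (mem_of ⟨i, σ₀ i⟩ (-1) _ (by
        rw [hM'W, hWv, qff, qef, zero_smul, one_smul, zero_sub, neg_one_smul]))
      rw [h3, rho_apply, Complex.neg_re, Complex.one_re, Complex.ofReal_neg,
        Complex.ofReal_one, neg_one_smul]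
    have h3 : ∀ z, bil G (cx e) z = 0 → bil G (cx f) z = 0 → N ⟨i, σ₀ i⟩ *ᵥ z = 0 := by
      intro z hz1 hz2
      have h4 := hNr ⟨i, σ₀ i⟩ hne 0 z (mem_of ⟨i, σ₀ i⟩ 0 _ (by
        rw [hM'W, hWv, hz1, hz2, zero_smul, zero_smul, sub_zero, zero_smul]))
      rw [h4, rho_apply, Complex.zero_re, Complex.ofReal_zero, zero_smul]
    apply Matrix.toLin'.injective
    apply LinearMap.ext
    intro x
    rw [Matrix.toLin'_apply, Matrix.toLin'_apply, hWv]
    have h5 := h3 (x - bil G (cx f) x • cx e - bil G (cx e) x • cx f) (by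
      rw [map_sub, map_sub, map_smul, map_smul, qee, qef, smul_zero, smul_eq_mul, mul_one,
        sub_zero, sub_self]) (by
      rw [map_sub, map_sub, map_smul, map_smul, qfe, qff, smul_zero, smul_eq_mul, mul_one,
        sub_self, sub_zero])
    rw [Matrix.mulVec_sub, Matrix.mulVec_sub, Matrix.mulVec_smul, Matrix.mulVec_smul, h1, h2,
      sub_eq_zero, sub_eq_iff_eq_add] at h5
    rw [h5, smul_neg, neg_add_eq_sub]
  refine ⟨e, f, he, hf', hef, fun p => if Nonempty (κ (ε p.1)) then N p else 0, ?_, ?_, ?_⟩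
  · obtain ⟨hN1, X, hX, hX2, hXM⟩ := hN
    refine ⟨fun p => ?_, X, hX, hX2, fun j => ?_⟩
    · by_cases hp : Nonempty (κ (ε p.1))
      · show SkP (h p.1) p.2 (if Nonempty (κ (ε p.1)) then N p else 0)
        rw [if_pos hp]
        exact hN1 p
      · show SkP (h p.1) p.2 (if Nonempty (κ (ε p.1)) then N p else 0)
        rw [if_neg hp]
        exact SkP.zero
    · by_cases hp : Nonempty (κ (ε j))
      · intro σ x
        show _ = tau (ts (t j) σ) ((if Nonempty (κ (ε j)) then N ⟨j, σ⟩ else 0) *ᵥ x)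
        rw [if_pos hp]
        exact hXM j σ x
      · intro σ x
        apply LinearMap.ext
        intro v
        funext a
        exact (hp ⟨a⟩).elim
  · show (if Nonempty (κ (ε i)) then N ⟨i, σ₀ i⟩ else 0) = W
    rw [if_pos hne, hNi]
  · intro p hp
    show (if Nonempty (κ (ε p.1)) then N p else 0) = 0
    by_cases hκ : Nonempty (κ (ε p.1))
    · rw [if_pos hκ]
      apply Matrix.toLin'.injective
      refine Helper65.Ball.ext_maxGen (Matrix.toLin' (M' p)) _ _ fun ν x hx => ?_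
      rw [Matrix.toLin'_apply, map_zero, LinearMap.zero_apply, hNr p hκ ν x hx]
      by_cases hx0 : x = 0
      · rw [hx0, smul_zero]
      obtain ⟨y, hy0, hy⟩ := HypE.exists_eig hx hx0
      rw [Matrix.toLin'_apply] at hy
      have hd : Definite ((h p.1).map p.2) := by
        have h6 := hdef p.1 p.2 hp
        rwa [hreal] at h6
      have h7 := re_zero hd (hM'r p) (hM'mem.1 p) hy0 hy
      rw [rho_apply, h7, Complex.ofReal_zero, zero_smul]
    · rw [if_neg hκ]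

end Pool.Agent.KSW
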