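import Pool.Agent.KSW.Fam

/-!
Replicas of families. The version of `KSR/RepG.lean` with an index map.
-/

namespace Pool.Agent.KSW

open Module Matrix NumberField Pool.Agent.Helper7 Pool.Agent.KS Pool.Agent.Ball
  Pool.Agent.Helper28.GPC Pool.Agent.KSE
open Pool.Agent.KSR (PL SkP exists_rep rep_act)

set_option linter.unusedSectionVars false

variable {I J : Type} [Fintype I] [DecidableEq I] [Fintype J] [DecidableEq J]
    {ε : I → J} (n : J → ℕ) {κ : J → Type}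
    [∀ j, Fintype (κ j)] [∀ j, DecidableEq (κ j)] {ϖ : ℂ} (hϖ : ϖ ≠ 0) (P : ∀ j, PData (κ j) ϖ)
    {k : ℕ} (γ : MultilinearMap ℂ (fun _ : Fin (2 * k) => HW κ n) ℂ)
    (hB : ∀ v : Fin (2 * k) → HW κ n, (∀ r, IsRatP n P (v r)) → ∃ q : ℚ, γ v = ϖ ^ k * q)

variable {K : I → Type} [∀ i, Field (K i)] [∀ i, NumberField (K i)] {c : ∀ i, K i →+* K i}
    {m : I → ℕ} {h : ∀ i, Matrix (Fin (m i)) (Fin (m i)) (K i)}
    {t : ∀ i, Fin (m i) → K i → Module.End ℂ (κ (ε i) → ℂ)}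
    (S : ∀ i, MD (P (ε i)) (c i) (h i) (t i))
    (hreal : ∀ i (σ : K i →+* ℂ), cj σ = σ)
    (hT : ∀ X : GG κ, IsInv n P γ X → ∀ i, ∃ M, ActM (t i) (X.1 (ε i)) M)

include S hreal hT in
/-- the replica of a family -/
theorem RRE_rep {M : ∀ p : PL K, Matrix (Fin (m p.1)) (Fin (m p.1)) ℂ}
    (hM : M ∈ RRE ε n P h t γ) (ρ : ℂ →+ ℂ) :
    ∃ N ∈ RRE ε n P h t γ, ∀ p : PL K, Nonempty (κ (ε p.1)) → ∀ ν,
      ∀ x ∈ Module.End.maxGenEigenspace (Matrix.toLin' (M p)) ν, N p *ᵥ x = ρ ν • x := by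
  obtain ⟨_, X, hX, hX2, hXM⟩ := hM
  obtain ⟨Y, hY, hY2, hYr⟩ := exists_rep n P γ X hX hX2 ρ
  obtain ⟨N, hN, hYN⟩ := exists_famE S hreal hT Y hY hY2
  refine ⟨N, hN, fun p hp ν x hx => ?_⟩
  exact rep_act (t p.1) (X.1 (ε p.1)) (Y.1 (ε p.1)) ρ (hYr (ε p.1)) (M := fun σ => M ⟨p.1, σ⟩)
    (N := fun σ => N ⟨p.1, σ⟩) (hXM p.1) (hYN p.1) p.2
    (tau_injE (S p.1).conj (S p.1).cliff (S p.1).nd p.2) ν x hx

end Pool.Agent.KSW
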